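import Pool.Agent.MWFE.StmtsC
import Pool.Agent.Helper86_MWE.STA
import Pool.Agent.Helper89_MWE.FPR

/-!
# Row FPZ of squad MWFE: projections of the big words
-/

set_option autoImplicit false

namespace Pool.Agent.MWFE.H54P

open Pool.Agent.Helper14_MV Pool.Agent.Helper2_MV Pool.Agent.MVD
open Pool.Agent.MWE (Can XX fxy dxy dx dy up cp cl L4 pr Xs xl isx Fs nd nr)
open Pool.Agent.MWE.H89 (bw_flatMap bw_congr fm_congr pr_x l4_fm z3_fm count_bw_two)
open Pool.Agent.MWE.H86 (sta_xx)

/-- the projected token -/
def tq (n z i j k l : ℕ) : List ℕ :=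
  List.replicate (n + if k < l then 1 else 0) z ++ ((if l = i then [0] else if l = j then [3] else []) ++
    List.replicate (2 * n - if k < l then 1 else 0) z)

theorem pr_hk (m i j k k' : ℕ) (hk' : k' < 3) :
    pr i j k (hk m k') = if k' = k then [3 * m + 1] else [] := by
  unfold hk pr
  rw [if_neg (by omega), if_pos (by omega)]
  have e1 : (3 * (3 * m + k') + 1) / 3 = 3 * m + k' := by omega
  have e2 : (3 * m + k') % 3 = k' := by omega
  have e3 : (3 * m + k') / 3 = m := by omega
  rw [e1, e2, e3]

theorem rep_pr (m i j k k' a : ℕ) (hk' : k' < 3) :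
    (List.replicate a (hk m k')).flatMap (pr i j k) =
      if k' = k then List.replicate a (3 * m + 1) else [] := by
  induction a with
  | zero => simp
  | succ a ih =>
    rw [List.replicate_succ, List.flatMap_cons, ih, pr_hk m i j k k' hk']
    by_cases h : k' = k
    · rw [if_pos h, if_pos h, if_pos h, List.replicate_succ]
      rfl
    · rw [if_neg h, if_neg h, if_neg h]
      rfl

theorem fm_fm (f g : ℕ → List ℕ) : ∀ l : List ℕ, (l.flatMap f).flatMap g =
    l.flatMap (fun a => (f a).flatMap g)
  | [] => rfl
  | a :: l => by rw [List.flatMap_cons, List.flatMap_append, fm_fm f g l, List.flatMap_cons]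

theorem rng_pr (m i j k : ℕ) (hk3 : k < 3) (e : ℕ → ℕ) :
    ((List.range 3).flatMap (fun k' => List.replicate (e k') (hk m k'))).flatMap (pr i j k) =
      List.replicate (e k) (3 * m + 1) := by
  rw [fm_fm]
  have h0 := rep_pr m i j k 0 (e 0) (by omega)
  have h1 := rep_pr m i j k 1 (e 1) (by omega)
  have h2 := rep_pr m i j k 2 (e 2) (by omega)
  have hr : List.range 3 = [0, 1, 2] := rfl
  rw [hr, List.flatMap_cons, List.flatMap_cons, List.flatMap_cons, List.flatMap_nil, h0, h1, h2]
  interval_cases k <;> simp

theorem t4_pr (n m i j k l : ℕ) (hk3 : k < 3) (hl : l < 4) :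
    (T4 n m l).flatMap (pr i j k) = tq n (3 * m + 1) i j k l := by
  unfold T4 tq
  rw [List.flatMap_append, List.flatMap_cons, rng_pr m i j k hk3 (fun k' => n + if k' < l then 1 else 0),
    rng_pr m i j k hk3 (fun k' => 2 * n - if k' < l then 1 else 0), pr_x i j k l hl]

section

variable {n : ℕ} {β : FIC}

/-- the tokens of `i`, `j` -/
def tp (n z i j l : ℕ) : List ℕ := if l = i then tk n z 0 0 else if l = j then tk n z 3 1 else []

theorem rep_rep (a b z : ℕ) (q : List ℕ) :
    List.replicate a z ++ (List.replicate b z ++ q) = List.replicate (a + b) z ++ q := by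
  rw [← List.append_assoc, List.replicate_append_replicate]

theorem del (hPWL : PwlStmt) (hz : Hz n β) (z i j k : ℕ) (hik : i ≤ k) (hkj : k < j) :
    ∀ (s p q : List ℕ) (a : ℕ), 2 ≤ a →
      RR β (p ++ (List.replicate a z ++ (s.flatMap (tq n z i j k) ++ q)))
        (p ++ (List.replicate a z ++ (s.flatMap (tp n z i j) ++ q)))
  | [], p, q, a, _ => RR.refl _
  | l :: s, p, q, a, ha => by
    have hn := hz.n2
    rw [List.flatMap_cons, List.flatMap_cons]
    by_cases h1 : l = i
    · subst h1
      have e1 : tq n z l j k l = List.replicate n z ++ 0 :: List.replicate (2 * n) z := by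
        unfold tq
        rw [if_neg (by omega), if_pos rfl]
        rfl
      have e2 : tp n z l j l = List.replicate n z ++ 0 :: List.replicate (2 * n) z := by
        unfold tp tk
        rw [if_pos rfl]
        rfl
      rw [e1, e2]
      have ih := del hPWL hz z l j k hik hkj s (p ++ (List.replicate a z ++
        (List.replicate n z ++ [0]))) q (2 * n) (by omega)
      simpa only [List.append_assoc, List.cons_append, List.nil_append] using ih
    · by_cases h2 : l = j
      · subst h2
        have e1 : tq n z i l k l = List.replicate (n + 1) z ++ 3 :: List.replicate (2 * n - 1) z := by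
          unfold tq
          rw [if_pos hkj, if_neg h1, if_pos rfl]
          rfl
        have e2 : tp n z i l l = List.replicate (n + 1) z ++ 3 :: List.replicate (2 * n - 1) z := by
          unfold tp tk
          rw [if_neg h1, if_pos rfl]
        rw [e1, e2]
        have ih := del hPWL hz z i l k hik hkj s (p ++ (List.replicate a z ++
          (List.replicate (n + 1) z ++ [3]))) q (2 * n - 1) (by omega)
        simpa only [List.append_assoc, List.cons_append, List.nil_append] using ih
      · have e1 : tq n z i j k l = List.replicate (3 * n) z := by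
          unfold tq
          rw [if_neg h1, if_neg h2, List.nil_append, List.replicate_append_replicate]
          congr 1
          split_ifs <;> omega
        have e2 : tp n z i j l = [] := by
          unfold tp
          rw [if_neg h1, if_neg h2]
        rw [e1, e2, List.nil_append, List.append_assoc, rep_rep]
        have ih := del hPWL hz z i j k hik hkj s p q (a + 3 * n) (by omega)
        refine β.trans ih ?_
        exact hPWL n β hz p _ z (a + 3 * n) a (by
          show (a + 3 * n) % n = a % n
          rw [Nat.add_mul_mod_self_right]) (by omega) ha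

theorem kz_fm (z i j : ℕ) (s : List ℕ) :
    s.flatMap (tp n z i j) = KZ n z (Xs i j s) := by
  unfold KZ Xs
  rw [fm_fm]
  congr 1
  funext l
  unfold tp
  by_cases h1 : l = i
  · rw [if_pos h1, if_pos h1]
    simp [lam]
  · by_cases h2 : l = j
    · rw [if_neg h1, if_pos h2, if_neg h1, if_pos h2]
      simp [lam]
    · rw [if_neg h1, if_neg h2, if_neg h1, if_neg h2]
      rfl

/-- padding of the tokens -/
theorem pad (hPWL : PwlStmt) (hz : Hz n β) (z : ℕ) (X p q : List ℕ) (hX : XX X) :
    RR β (p ++ (KZ n z X ++ q))
      (p ++ (List.replicate n z ++ (KZ n z X ++ (List.replicate n z ++ q)))) := by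
  have hn := hz.n2
  have md : ∀ a : ℕ, a ≡ n + a [MOD n] := fun a => by
    show a % n = (n + a) % n
    rw [Nat.add_mod_left]
  have md' : ∀ a : ℕ, a ≡ a + n [MOD n] := fun a => by
    show a % n = (a + n) % n
    rw [Nat.add_mod_right]
  rcases hX with rfl | rfl
  · have e : KZ n z [0, 3] = List.replicate n z ++ 0 :: (List.replicate (2 * n) z ++
        (List.replicate (n + 1) z ++ 3 :: List.replicate (2 * n - 1) z)) := by
      simp [KZ, tk, lam]
    rw [e]
    have s1 := hPWL n β hz p (0 :: (List.replicate (2 * n) z ++ (List.replicate (n + 1) z ++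
      3 :: (List.replicate (2 * n - 1) z ++ q)))) z n (n + n) (md n) hn (by omega)
    have s2 := hPWL n β hz (p ++ (List.replicate (n + n) z ++ 0 :: (List.replicate (2 * n) z ++
      (List.replicate (n + 1) z ++ [3])))) q z (2 * n - 1) (2 * n - 1 + n) (md' _) (by omega)
      (by omega)
    simp only [List.append_assoc, List.cons_append, List.nil_append] at s2
    have s3 : RR β _ _ := β.trans s1 s2
    simp only [List.append_assoc, List.cons_append, rep_rep] at s3 ⊢
    exact s3
  · have e : KZ n z [3, 0] = List.replicate (n + 1) z ++ 3 :: (List.replicate (2 * n - 1) z ++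
        (List.replicate n z ++ 0 :: List.replicate (2 * n) z)) := by
      simp [KZ, tk, lam]
    rw [e]
    have s1 := hPWL n β hz p (3 :: (List.replicate (2 * n - 1) z ++ (List.replicate n z ++
      0 :: (List.replicate (2 * n) z ++ q)))) z (n + 1) (n + (n + 1)) (md _) (by omega) (by omega)
    have s2 := hPWL n β hz (p ++ (List.replicate (n + (n + 1)) z ++ 3 :: (List.replicate (2 * n - 1) z ++
      (List.replicate n z ++ [0])))) q z (2 * n) (2 * n + n) (md' _) (by omega)
      (by omega)
    simp only [List.append_assoc, List.cons_append, List.nil_append] at s2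
    have s3 : RR β _ _ := β.trans s1 s2
    simp only [List.append_assoc, List.cons_append, rep_rep] at s3 ⊢
    exact s3

end

theorem bw_split (R1 R2 : List ℕ) (B : ℕ → List ℕ) :
    Bw (R1 ++ 0 :: R2) B = Bw R1 B ++ (B 0 ++ 2 :: Bw R2 B) := by
  unfold Bw
  rw [List.flatMap_append, List.flatMap_cons]
  simp

theorem t4_letters (n m l : ℕ) : ∀ a ∈ T4 n m l, (∃ k < 3, a = hk m k) ∨ a = 3 * l := by
  intro a ha
  unfold T4 at ha
  rw [List.mem_append, List.mem_cons] at ha
  rcases ha with ha | ha | ha
  · obtain ⟨k, h1, h⟩ := List.mem_flatMap.1 ha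
    exact Or.inl ⟨k, List.mem_range.1 h1, List.eq_of_mem_replicate h⟩
  · exact Or.inr ha
  · obtain ⟨k, h1, h⟩ := List.mem_flatMap.1 ha
    exact Or.inl ⟨k, List.mem_range.1 h1, List.eq_of_mem_replicate h⟩

theorem t4_count (n m l : ℕ) {k : ℕ} (hk' : k < 3) : n ≤ (T4 n m l).count (hk m k) := by
  have h1 : (List.replicate n (hk m k)).Sublist (T4 n m l) := by
    unfold T4
    refine List.Sublist.trans ?_ (List.sublist_append_left _ _)
    have hr : List.range 3 = [0, 1, 2] := rfl
    rw [hr, List.flatMap_cons, List.flatMap_cons, List.flatMap_cons, List.flatMap_nil]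
    have key : ∀ k, (List.replicate n (hk m k)).Sublist
        (List.replicate (n + if k < l then 1 else 0) (hk m k)) := fun k =>
      List.replicate_sublist_replicate _ |>.2 (by split_ifs <;> omega)
    interval_cases k
    · exact (key 0).trans (List.sublist_append_left _ _)
    · exact (key 1).trans ((List.sublist_append_left _ _).trans (List.sublist_append_right _ _))
    · exact (key 2).trans ((List.sublist_append_left _ _).trans
        ((List.sublist_append_right _ _).trans (List.sublist_append_right _ _)))
  have h2 := List.Sublist.count_le (hk m k) h1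
  rw [List.count_replicate_self] at h2
  exact h2

theorem count_bw_one {R : List ℕ} (B : ℕ → List ℕ) {r a : ℕ} (h : r ∈ R) :
    (B r).count a ≤ (Bw R B).count a := by
  refine List.Sublist.count_le _ ?_
  unfold Bw
  obtain ⟨R1, R2, rfl⟩ := List.append_of_mem h
  rw [List.flatMap_append, List.flatMap_cons]
  exact (List.sublist_append_left _ _).trans ((List.sublist_append_left _ _).trans
    (List.sublist_append_right _ _))

theorem cp_sf (k : ℕ) (c : List ℕ) : ∀ a ∈ cp k c, a % 3 ≠ 2 := by
  intro a ha
  unfold cp at ha
  rw [List.mem_map] at ha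
  obtain ⟨b, _, hb⟩ := ha
  unfold cl at hb
  split_ifs at hb <;> omega

theorem l4_sf (c : List ℕ) : ∀ a ∈ L4 c, a % 3 ≠ 2 := by
  intro a ha
  unfold L4 at ha
  simp only [List.mem_cons, List.mem_append, List.not_mem_nil, or_false] at ha
  rcases ha with h | h | h | h | h | h | h
  · omega
  · exact cp_sf 0 c a h
  · omega
  · exact cp_sf 1 c a h
  · omega
  · exact cp_sf 2 c a h
  · omega

/-- Row FPZ. -/
theorem fpz (hPWL : PwlStmt) : FpzStmt := by
  intro n β m R c s hz hc hR hs
  have hn := hz.n2
  have hnd : R.Nodup := hR.nodup_iff.2 List.nodup_range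
  have hs4 : ∀ a ∈ s, a < 4 := by
    intro a ha
    have := hs.mem_iff.1 ha
    simp only [List.mem_cons, List.not_mem_nil, or_false] at this
    omega
  have hcnt : ∀ a < 4, s.count a = 1 := by
    intro a ha
    rw [hs.count_eq]
    interval_cases a <;> decide
  have hmem : ∀ r, r ∈ R ↔ r < m + 2 := by
    intro r
    rw [hR.mem_iff, List.mem_range]
  have h0R : 0 ∈ R := (hmem 0).2 (by omega)
  have h1R : 1 ∈ R := (hmem 1).2 (by omega)
  have B0 : Bq n m s c 0 = s.flatMap (T4 n m) := rfl
  have B1 : Bq n m s c 1 = L4 c := rfl
  have Br : ∀ r, r ≠ 0 → r ≠ 1 → Bq n m s c r = Z3 r := by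
    intro r h0 h1
    unfold Bq
    rw [if_neg h0, if_neg h1]
  refine ⟨?_, ?_, ?_⟩
  · intro i k j hik hkj hj
    have hij : i ≠ j := by omega
    have hX : XX (Xs i j s) := sta_xx i j hij s (hcnt i (by omega)) (hcnt j (by omega))
    obtain ⟨R1, R2, hRR⟩ := List.append_of_mem h0R
    have hn1 : 0 ∉ R1 ∧ 0 ∉ R2 := by
      rw [hRR, List.nodup_append, List.nodup_cons] at hnd
      exact ⟨fun h => hnd.2.2 0 h 0 (by simp) rfl, hnd.2.1.1⟩
    obtain ⟨D, hD⟩ : ∃ D : ℕ → List ℕ, D = fun r => if r = 1 then 0 :: (c ++ [3])
      else [3 * (r - 2) + 1] := ⟨_, rfl⟩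
    have hD' : ∀ r, r ≠ 0 → (Bq n m s c r).flatMap (pr i j k) = D r := by
      intro r h0
      by_cases h1 : r = 1
      · subst h1
        have hD1 : D 1 = 0 :: (c ++ [3]) := by rw [hD]; rfl
        rw [B1, hD1]
        exact l4_fm hc hik hkj hj
      · have hDr : D r = [3 * (r - 2) + 1] := by rw [hD]; exact if_neg h1
        rw [Br r h0 h1, hDr]
        exact z3_fm i j (by omega)
    have e1 : ExZ n m R c (Xs i j s) = Bw R1 D ++ (KZ n (3 * m + 1) (Xs i j s) ++ 2 :: Bw R2 D) := by
      unfold ExZ Eg
      rw [hRR, bw_split]
      congr 1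
      · refine bw_congr fun r hr => ?_
        have h0 : r ≠ 0 := fun h => hn1.1 (h ▸ hr)
        rw [hD]
        simp only [if_neg h0]
      · congr 2
        refine bw_congr fun r hr => ?_
        have h0 : r ≠ 0 := fun h => hn1.2 (h ▸ hr)
        rw [hD]
        simp only [if_neg h0]
    have e2 : Bw R (pz n (3 * m + 1) (fun r => (Bq n m s c r).flatMap (pr i j k))) =
        Bw R1 D ++ (List.replicate n (3 * m + 1) ++ (s.flatMap (tq n (3 * m + 1) i j k) ++
          (List.replicate n (3 * m + 1) ++ 2 :: Bw R2 D))) := by
      rw [hRR, bw_split]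
      have e3 : pz n (3 * m + 1) (fun r => (Bq n m s c r).flatMap (pr i j k)) 0 =
          List.replicate n (3 * m + 1) ++ (s.flatMap (tq n (3 * m + 1) i j k) ++
            List.replicate n (3 * m + 1)) := by
        unfold pz up
        rw [if_pos rfl]
        simp only [B0]
        rw [fm_fm, fm_congr (fun a ha => t4_pr n m i j k a (by omega) (hs4 a ha))]
      rw [e3]
      have e4 : ∀ R' : List ℕ, 0 ∉ R' →
          Bw R' (pz n (3 * m + 1) (fun r => (Bq n m s c r).flatMap (pr i j k))) = Bw R' D := by
        intro R' h
        refine bw_congr fun r hr => ?_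
        have h0 : r ≠ 0 := fun h2 => h (h2 ▸ hr)
        unfold pz up
        rw [if_neg h0]
        exact hD' r h0
      rw [e4 R1 hn1.1, e4 R2 hn1.2]
      simp only [List.append_assoc]
    rw [e1, e2]
    have s1 := pad hPWL hz (3 * m + 1) (Xs i j s) (Bw R1 D) (2 :: Bw R2 D) hX
    have s2 := del hPWL hz (3 * m + 1) i j k hik hkj s (Bw R1 D)
      (List.replicate n (3 * m + 1) ++ 2 :: Bw R2 D) n hn
    rw [kz_fm] at s2
    exact β.trans s1 s2.symm
  · intro a ha h2
    have two : ∀ r r', r ∈ R → r' ∈ R → r ≠ r' → a ∈ Bq n m s c r → a ∈ Bq n m s c r' →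
        2 ≤ (FqZ n m R s c).count a := by
      intro r r' hr hr' hne h1 h2
      have h3 := count_bw_two (Bq n m s c) hnd (a := a) hr hr' hne
      have h4 := List.count_pos_iff.2 h1
      have h5 := List.count_pos_iff.2 h2
      unfold FqZ
      omega
    have hx1 : ∀ i < 4, 3 * i ∈ L4 c := by
      intro i hi
      unfold L4
      interval_cases i <;> simp
    have hx0 : ∀ i < 4, 3 * i ∈ Bq n m s c 0 := by
      intro i hi
      rw [B0]
      refine List.mem_flatMap.2 ⟨i, hs.mem_iff.2 ?_, ?_⟩
      · interval_cases i <;> simp
      · unfold T4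
        simp
    have ha' := ha
    unfold FqZ Bw at ha'
    obtain ⟨r, hr, har⟩ := List.mem_flatMap.1 ha'
    have har' : a ∈ Bq n m s c r := by
      rcases List.mem_append.1 har with h | h
      · exact h
      · rw [List.mem_singleton] at h
        omega
    by_cases hr0 : r = 0
    · subst hr0
      have h3 := har'
      rw [B0] at h3
      obtain ⟨l, hl, h4⟩ := List.mem_flatMap.1 h3
      rcases t4_letters n m l a h4 with ⟨k, hk', rfl⟩ | rfl
      · have h5 : (T4 n m l).count (hk m k) ≤ (Bq n m s c 0).count (hk m k) := by
          rw [B0]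
          refine List.Sublist.count_le _ ?_
          obtain ⟨s1, s2, rfl⟩ := List.append_of_mem hl
          rw [List.flatMap_append, List.flatMap_cons]
          exact (List.sublist_append_left _ _).trans (List.sublist_append_right _ _)
        have h6 := t4_count n m l hk'
        have h7 := count_bw_one (Bq n m s c) (a := hk m k) h0R
        unfold FqZ
        omega
      · exact two 0 1 h0R h1R (by omega) har' (by rw [B1]; exact hx1 l (hs4 l hl))
    by_cases hr1 : r = 1
    · subst hr1
      have h3 := har'
      rw [B1] at h3
      have hcp : ∀ k < 3, a ∈ cp k c → 2 ≤ (FqZ n m R s c).count a := by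
        intro k hk hak
        unfold cp at hak
        obtain ⟨u, hu, rfl⟩ := List.mem_map.1 hak
        rcases hc.lo u hu with ⟨d, hd, rfl⟩ | ⟨h4, h5, h6⟩
        · refine two 1 (d + 2) h1R ((hmem _).2 (by omega)) (by omega) har' ?_
          rw [Br (d + 2) (by omega) (by omega)]
          have e : cl k (3 * d + 1) = 3 * (3 * d + k) + 1 := by
            unfold cl
            rw [if_pos (by omega)]
            have : (3 * d + 1) / 3 = d := by omega
            rw [this]
          rw [e]
          unfold Z3
          have e2 : d + 2 - 2 = d := by omega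
          rw [e2]
          interval_cases k <;> simp
        · have h7 : 2 ≤ (cp k c).count (cl k u) := by
            unfold cp
            exact h6.trans (List.count_le_count_map ..)
          have h8 : (cp k c).count (cl k u) ≤ (L4 c).count (cl k u) := by
            refine List.Sublist.count_le _ ?_
            unfold L4
            interval_cases k
            · exact (List.sublist_append_left _ _).trans (List.sublist_cons_self _ _)
            · refine List.Sublist.trans ?_ (List.sublist_cons_self _ _)
              refine List.Sublist.trans ?_ (List.sublist_append_right _ _)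
              refine List.Sublist.trans ?_ (List.sublist_cons_self _ _)
              exact List.sublist_append_left _ _
            · refine List.Sublist.trans ?_ (List.sublist_cons_self _ _)
              refine List.Sublist.trans ?_ (List.sublist_append_right _ _)
              refine List.Sublist.trans ?_ (List.sublist_cons_self _ _)
              refine List.Sublist.trans ?_ (List.sublist_append_right _ _)
              refine List.Sublist.trans ?_ (List.sublist_cons_self _ _)
              exact List.sublist_append_left _ _
          have h9 := count_bw_one (Bq n m s c) (a := cl k u) h1R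
          rw [B1] at h9
          unfold FqZ
          omega
      unfold L4 at h3
      simp only [List.mem_cons, List.mem_append, List.not_mem_nil, or_false] at h3
      rcases h3 with h | h | h | h | h | h | h
      · subst h
        exact two 0 1 h0R h1R (by omega) (hx0 0 (by omega)) har'
      · exact hcp 0 (by omega) h
      · subst h
        exact two 0 1 h0R h1R (by omega) (hx0 1 (by omega)) har'
      · exact hcp 1 (by omega) h
      · subst h
        exact two 0 1 h0R h1R (by omega) (hx0 2 (by omega)) har'
      · exact hcp 2 (by omega) h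
      · subst h
        exact two 0 1 h0R h1R (by omega) (hx0 3 (by omega)) har'
    · have hrm := (hmem r).1 hr
      have h3 := har'
      rw [Br r hr0 hr1] at h3
      have hlight : 3 * (r - 2) + 1 ∈ c := by
        have := hc.li (r - 2) (by omega)
        exact List.count_pos_iff.1 (by omega)
      have hcl : ∀ t < 3, cl t (3 * (r - 2) + 1) = 3 * (3 * (r - 2) + t) + 1 := by
        intro t _
        unfold cl
        rw [if_pos (by omega)]
        have : (3 * (r - 2) + 1) / 3 = r - 2 := by omega
        rw [this]
      have hin : ∀ t < 3, 3 * (3 * (r - 2) + t) + 1 ∈ cp t c := by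
        intro t ht
        unfold cp
        exact List.mem_map.2 ⟨_, hlight, hcl t ht⟩
      refine two r 1 hr h1R hr1 har' ?_
      rw [B1]
      unfold Z3 at h3
      simp only [List.mem_cons, List.not_mem_nil, or_false] at h3
      unfold L4
      simp only [List.mem_cons, List.mem_append]
      rcases h3 with h | h | h
      · have : 3 * (3 * (r - 2)) + 1 ∈ cp 0 c := hin 0 (by omega)
        rw [← h] at this
        exact Or.inr (Or.inl this)
      · have := hin 1 (by omega)
        rw [← h] at this
        exact Or.inr (Or.inr (Or.inr (Or.inl this)))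
      · have := hin 2 (by omega)
        rw [← h] at this
        exact Or.inr (Or.inr (Or.inr (Or.inr (Or.inr (Or.inl this)))))
  · intro r a ha
    by_cases hr0 : r = 0
    · subst hr0
      rw [B0] at ha
      obtain ⟨l, hl, h4⟩ := List.mem_flatMap.1 ha
      rcases t4_letters n m l a h4 with ⟨k, -, rfl⟩ | rfl
      · unfold hk
        omega
      · omega
    by_cases hr1 : r = 1
    · subst hr1
      rw [B1] at ha
      exact l4_sf c a ha
    · rw [Br r hr0 hr1] at ha
      unfold Z3 at ha
      simp only [List.mem_cons, List.not_mem_nil, or_false] at ha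
      omega

end Pool.Agent.MWFE.H54P
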