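import Pool.Agent.MWFE.StmtsC
import Pool.Agent.Helper86_MWE.STA
import Pool.Agent.Helper59_MWE.DCM

/-!
# Row STZ of squad MWFE: the step stays in the family
-/

set_option autoImplicit false

namespace Pool.Agent.MWFE.H54

open Pool.Agent.Helper14_MV Pool.Agent.Helper2_MV Pool.Agent.MVD
open Pool.Agent.MWE (Can XX fxy dxy dx dy up cp cl L4 pr Xs xl isx Fs nd nr)
open Pool.Agent.MWE.H86 (sta_filt sta_filt_nil sta_bw sta_sf sta_fxy sta_cnt0 sta_cnt3 sta_xx sta_perm)
open Pool.Agent.MWGR (cb)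

theorem pwr_fm (g : ℕ → List ℕ) (w : List ℕ) : ∀ k : ℕ, (pwr k w).flatMap g = pwr k (w.flatMap g)
  | 0 => rfl
  | k + 1 => by
    have ih := pwr_fm g w k
    have e1 : ∀ w : List ℕ, pwr (k + 1) w = w ++ pwr k w := by
      intro w
      unfold pwr
      rw [List.replicate_succ, List.flatten_cons]
    rw [e1, e1, List.flatMap_append, ih]

theorem rep_fm (φ : ℕ → List ℕ) (a : ℕ) : ∀ k : ℕ, (List.replicate k a).flatMap φ = pwr k (φ a)
  | 0 => rfl
  | k + 1 => by
    have ih := rep_fm φ a k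
    unfold pwr at ih ⊢
    rw [List.replicate_succ, List.flatMap_cons, ih, List.replicate_succ, List.flatten_cons]

theorem fm_fm (f g : ℕ → List ℕ) : ∀ l : List ℕ, (l.flatMap f).flatMap g =
    l.flatMap (fun a => (f a).flatMap g)
  | [] => rfl
  | a :: l => by rw [List.flatMap_cons, List.flatMap_append, fm_fm f g l, List.flatMap_cons]

/-- the token of the pattern goes to the token of the images -/
theorem t4_fm (n m : ℕ) (φ : ℕ → List ℕ) (s : List ℕ) : (s.flatMap (T4 n m)).flatMap φ =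
    Yw n (fun k => φ (hk m k)) (fun l => φ (3 * l)) s := by
  rw [fm_fm]
  unfold Yw
  congr 1
  funext l
  unfold T4
  rw [List.flatMap_append, List.flatMap_cons, fm_fm, fm_fm]
  congr 1
  · congr 1
    funext k
    exact rep_fm φ _ _
  · congr 2
    funext k
    exact rep_fm φ _ _

theorem yw_fm (n : ℕ) (ζ A g : ℕ → List ℕ) (s : List ℕ) : (Yw n ζ A s).flatMap g =
    Yw n (fun k => (ζ k).flatMap g) (fun l => (A l).flatMap g) s := by
  unfold Yw
  rw [fm_fm]
  congr 1
  funext l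
  rw [List.flatMap_append, List.flatMap_append, fm_fm, fm_fm]
  congr 1
  · congr 1
    funext k
    exact pwr_fm g _ _
  · congr 2
    funext k
    exact pwr_fm g _ _

theorem cnt4 {t : List ℕ} (h : t.Perm [0, 1, 2, 3]) (a : ℕ) (ha : a < 4) : t.count a = 1 := by
  rw [h.count_eq]
  interval_cases a <;> decide

/-- Row STZ. -/
theorem stz (hYQZ : YqzStmt) (hORZ : OrzStmt) (_hBAZ : BazStmt) (hCLB : ClbStmt) (hFAZ : FazStmt)
    (hSPZ : SpzStmt) (hSEZ : SezStmt) : StzStmt := by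
  intro n β m R c s s' t M Q φ hS hs hs' hF
  obtain ⟨U, V1, V2, hU⟩ := hSPZ n m R c hS.pR hS.b01
  have hsep := hSEZ n β m R c s t M Q φ hS hs hF
  -- letters of `L4 c`
  have hL4 : ∀ a ∈ L4 c, a % 3 ≠ 2 := by
    intro a ha
    have hcp : ∀ k, ∀ a ∈ cp k c, a % 3 ≠ 2 := by
      intro k a ha
      unfold cp at ha
      rw [List.mem_map] at ha
      obtain ⟨b, _, hb⟩ := ha
      unfold cl at hb
      split_ifs at hb <;> omega
    unfold L4 at ha
    simp only [List.mem_cons, List.mem_append, List.not_mem_nil, or_false] at ha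
    rcases ha with h | h | h | h | h | h | h
    · omega
    · exact hcp 0 a h
    · omega
    · exact hcp 1 a h
    · omega
    · exact hcp 2 a h
    · omega
  have h3L : ∀ i < 4, 3 * i ∈ L4 c := by
    intro i hi
    unfold L4
    interval_cases i <;> simp
  have hLF : ∀ a ∈ L4 c, SFr (φ a) := by
    intro a ha
    refine hsep a ?_ (hL4 a ha)
    rw [hU s]
    simp [ha]
  have hLam : SFr ((L4 c).flatMap φ) := by
    intro a ha
    rw [List.mem_flatMap] at ha
    obtain ⟨b, hb, hab⟩ := ha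
    exact hLF b hb a hab
  -- letters of the tokens
  have hT4 : ∀ l, ∀ a ∈ T4 n m l, a % 3 ≠ 2 := by
    intro l a ha
    unfold T4 at ha
    rw [List.mem_append, List.mem_cons] at ha
    rcases ha with ha | ha | ha
    · obtain ⟨k, -, h⟩ := List.mem_flatMap.1 ha
      have := List.eq_of_mem_replicate h
      rw [this]
      unfold hk
      omega
    · rw [ha]
      omega
    · obtain ⟨k, -, h⟩ := List.mem_flatMap.1 ha
      have := List.eq_of_mem_replicate h
      rw [this]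
      unfold hk
      omega
  have hYS : SFr ((s.flatMap (T4 n m)).flatMap φ) := by
    intro a ha
    obtain ⟨b, hb, hab⟩ := List.mem_flatMap.1 ha
    refine hsep b ?_ ?_ a hab
    · rw [hU s]
      simp only [List.mem_append]
      exact Or.inr (Or.inl hb)
    · obtain ⟨l, -, hl⟩ := List.mem_flatMap.1 hb
      exact hT4 l b hl
  obtain ⟨ζ, hζ⟩ : ∃ ζ : ℕ → List ℕ, ζ = fun k => φ (hk m k) := ⟨_, rfl⟩
  obtain ⟨A, hA⟩ : ∃ A : ℕ → List ℕ, A = fun l => φ (3 * l) := ⟨_, rfl⟩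
  have eY : (s.flatMap (T4 n m)).flatMap φ = Yw n ζ A s := by rw [t4_fm, hζ, hA]
  have eY' : (s'.flatMap (T4 n m)).flatMap φ = Yw n ζ A s' := by rw [t4_fm, hζ, hA]
  have hn2 : 2 ≤ n := hS.hz.n2
  have hAL : ∀ l < 4, ∀ a ∈ A l, a ∈ (L4 c).flatMap φ := by
    intro l hl a ha
    rw [hA] at ha
    exact List.mem_flatMap.2 ⟨3 * l, h3L l hl, ha⟩
  have hYY : (Yw n ζ A s).Perm (Yw n ζ A s') := (hYQZ n ζ A s s' _ hn2 hs hs' hAL).1
  have hYS1 : SFr (Yw n ζ A s) := by rw [← eY]; exact hYS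
  have hYS' : SFr (Yw n ζ A s') := fun a ha => hYS1 a (hYY.symm.subset ha)
  -- the two words
  have hw : ∀ s : List ℕ, M ++ ((FqZ n m R s c).flatMap φ ++ Q) =
      (M ++ U.flatMap φ) ++ ((s.flatMap (T4 n m)).flatMap φ ++
        (V1.flatMap φ ++ ((L4 c).flatMap φ ++ (V2.flatMap φ ++ Q)))) := by
    intro s
    rw [hU s]
    simp only [List.flatMap_append, List.append_assoc]
  have hws := hw s
  have hws' := hw s'
  clear hw
  rw [eY] at hws
  rw [eY'] at hws'
  obtain ⟨P1, hP1⟩ : ∃ P1 : List ℕ, P1 = M ++ U.flatMap φ := ⟨_, rfl⟩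
  obtain ⟨W1, hW1⟩ : ∃ W1 : List ℕ, W1 = V1.flatMap φ := ⟨_, rfl⟩
  obtain ⟨Λ, hΛ⟩ : ∃ Λ : List ℕ, Λ = (L4 c).flatMap φ := ⟨_, rfl⟩
  obtain ⟨W2, hW2⟩ : ∃ W2 : List ℕ, W2 = V2.flatMap φ ++ Q := ⟨_, rfl⟩
  rw [← hP1, ← hW1, ← hΛ, ← hW2] at hws hws'
  rw [← hΛ] at hLam hAL
  -- the blocks of the two words
  obtain ⟨B1, e1, hw1, hB1, he1, -⟩ := hF.2
  have hnd : R.Nodup := hS.pR.nodup_iff.mpr List.nodup_range
  have hfil : (M ++ ((FqZ n m R s' c).flatMap φ ++ Q)).filter (fun a => decide (a % 3 = 2)) =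
      R.map (fun r => 3 * r + 2) := by
    have h1 : (M ++ ((FqZ n m R s c).flatMap φ ++ Q)).filter (fun a => decide (a % 3 = 2)) =
        R.map (fun r => 3 * r + 2) := by
      rw [hw1, List.filter_append, sta_filt B1 hB1, sta_filt_nil e1 he1, List.append_nil]
    rw [hws] at h1
    rw [hws', ← h1]
    simp only [List.filter_append]
    rw [sta_filt_nil _ hYS1, sta_filt_nil _ hYS']
  obtain ⟨B, e, hwB, hB, he⟩ := MWE.H59.dcm R _ hnd hfil
  obtain ⟨-, -, -, hfaz⟩ := hFAZ n β m R c hS.hz hS.can hS.pR hS.no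
  have hF1 : FamZ n β m R c t (Bw R B1 ++ e1) := by rw [← hw1]; exact hF
  -- the projections
  have key : ∀ i k j : ℕ, i ≤ k → k < j → j ≤ 3 → XX (Xs i j (xl (B 0))) ∧
      RR β (ExZ n m R c (Xs i j (xl (B 0))))
        (Bw R (pz n (3 * m + 1) (fun r => (B r).flatMap (pr i j k))) ++ e.flatMap (pr i j k)) := by
    intro i k j hik hkj hj
    have hij : i ≠ j := by omega
    have hX : XX (Xs i j t) := sta_xx i j hij t (cnt4 hF.1 i (by omega)) (cnt4 hF.1 j (by omega))
    have hr := hfaz t B1 e1 hB1 he1 hF1 i k j hik hkj hj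
    have hq := hYQZ n (fun k' => (ζ k').flatMap (pr i j k)) (fun l => (A l).flatMap (pr i j k)) s s'
      (Λ.flatMap (pr i j k)) hn2 hs hs' (by
        intro l hl a ha
        obtain ⟨b, hb, hab⟩ := List.mem_flatMap.1 ha
        exact List.mem_flatMap.2 ⟨b, hAL l hl b hb, hab⟩)
    rw [← yw_fm, ← yw_fm] at hq
    have hp1 : Bw R (fun r => (B1 r).flatMap (pr i j k)) ++ e1.flatMap (pr i j k) =
        P1.flatMap (pr i j k) ++ ((Yw n ζ A s).flatMap (pr i j k) ++
          ((W1 ++ (Λ ++ W2)).flatMap (pr i j k))) := by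
      rw [← sta_bw, ← List.flatMap_append, ← hw1, hws]
      simp only [List.flatMap_append]
    have hp2 : Bw R (fun r => (B r).flatMap (pr i j k)) ++ e.flatMap (pr i j k) =
        P1.flatMap (pr i j k) ++ ((Yw n ζ A s').flatMap (pr i j k) ++
          ((W1 ++ (Λ ++ W2)).flatMap (pr i j k))) := by
      rw [← sta_bw, ← List.flatMap_append, ← hwB, hws']
      simp only [List.flatMap_append]
    obtain ⟨X', hX', hr'⟩ := hCLB n β m R c (Xs i j t) (fun r => (B1 r).flatMap (pr i j k))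
      (fun r => (B r).flatMap (pr i j k)) (e1.flatMap (pr i j k)) (e.flatMap (pr i j k)) hS hX
      (fun r => sta_sf i j k _ (hB1 r)) (sta_sf i j k _ he1) (fun r => sta_sf i j k _ (hB r))
      (sta_sf i j k _ he) hr (P1.flatMap (pr i j k)) ((Yw n ζ A s).flatMap (pr i j k))
      ((Yw n ζ A s').flatMap (pr i j k)) ((W1 ++ (Λ ++ W2)).flatMap (pr i j k))
      (W1.flatMap (pr i j k)) (Λ.flatMap (pr i j k)) (W2.flatMap (pr i j k)) hp1 hp2
      (by simp only [List.flatMap_append]) (sta_sf i j k _ hYS1) (sta_sf i j k _ hLam) hq.1 hq.2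
    have hb0 := hORZ n β m R c X' (fun r => (B r).flatMap (pr i j k)) (e.flatMap (pr i j k)) hS hX'
      (fun r => sta_sf i j k _ (hB r)) (sta_sf i j k _ he) hr'
    have hb1 : Xs i j (xl (B 0)) = X' := by
      rw [← sta_fxy i j k]
      exact hb0
    rw [hb1]
    exact ⟨hX', hr'⟩
  have cn : ∀ X, XX X → X.count 0 = 1 ∧ X.count 3 = 1 := by
    intro X hX
    rcases hX with rfl | rfl <;> decide
  have k1 := cn _ (key 0 0 1 (by omega) (by omega) (by omega)).1
  have k2 := cn _ (key 2 2 3 (by omega) (by omega) (by omega)).1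
  rw [sta_cnt0, sta_cnt3 _ _ (by omega)] at k1 k2
  refine ⟨xl (B 0), ?_, B, e, hwB, hB, he, fun i k j h1 h2 h3 => (key i k j h1 h2 h3).2⟩
  refine sta_perm _ ?_ k1.1 k1.2 k2.1 k2.2
  intro a ha
  unfold xl at ha
  rw [List.mem_map] at ha
  obtain ⟨b, hb, rfl⟩ := ha
  rw [List.mem_filter] at hb
  have := hb.2
  simp only [decide_eq_true_eq] at this
  omega

end Pool.Agent.MWFE.H54
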