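import Pool.Agent.MWFE.StmtsC
import Pool.Agent.Helper10_MWE.FCE
import Pool.Agent.Helper11_MWD.FIN3

/-!
# Row CLB of squad MWFE: a step in the class
-/

set_option autoImplicit false

namespace Pool.Agent.MWFE.H54C

open Pool.Agent.Helper14_MV Pool.Agent.Helper2_MV Pool.Agent.MVD
open Pool.Agent.MWE (Can XX fxy dxy dx dy up cp cl L4 pr Xs xl isx Fs nd nr)

theorem bw_cg {R : List ℕ} {B B' : ℕ → List ℕ} (h : ∀ r ∈ R, B r = B' r) : Bw R B = Bw R B' := by
  unfold Bw
  rw [List.flatMap_def, List.flatMap_def]
  congr 1
  refine List.map_congr_left fun r hr => ?_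
  rw [h r hr]

theorem pz_cg {n z : ℕ} {R : List ℕ} {B B' : ℕ → List ℕ} (h : ∀ r ∈ R, B r = B' r) :
    Bw R (pz n z B) = Bw R (pz n z B') := by
  refine bw_cg fun r hr => ?_
  unfold pz up
  by_cases h0 : r = 0
  · subst h0
    rw [if_pos rfl, if_pos rfl, h 0 hr]
  · rw [if_neg h0, if_neg h0, h r hr]

theorem bw_sp (R1 R2 : List ℕ) (r : ℕ) (B : ℕ → List ℕ) :
    Bw (R1 ++ r :: R2) B = Bw R1 B ++ (B r ++ (3 * r + 2) :: Bw R2 B) := by
  unfold Bw
  rw [List.flatMap_append, List.flatMap_cons]
  simp

theorem up_eq (B : ℕ → List ℕ) (r : ℕ) (D : List ℕ) : up B r D r = D := if_pos rfl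

theorem up_ne (B : ℕ → List ℕ) {r q : ℕ} (D : List ℕ) (h : q ≠ r) : up B r D q = B q := if_neg h

/-- Row CLB. -/
theorem clb (h0 : Cl0Stmt) (h1 : Cl1Stmt) (h2 : ClpStmt) : ClbStmt := by
  intro n β m R c X B B' e e' hS hX hB he hB' he' hr P1 Y Y' P2 Q1 Λ Q2 hw hw' hP2 hYs hΛs hYY hQ
  have hnd : R.Nodup := hS.pR.nodup_iff.mpr List.nodup_range
  have uni := Pool.Agent.MWD.H11.uniF
  have fce := Pool.Agent.MWE.H10.fce
  by_cases hY : Y = []
  · subst hY
    have hY' : Y' = [] := hYY.symm.eq_nil
    subst hY'
    obtain ⟨u1, u2⟩ := uni R B B' e e' hnd (fun r _ => hB r) (fun r _ => hB' r) he he'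
      (hw.trans hw'.symm)
    refine ⟨X, hX, ?_⟩
    rw [← pz_cg u1, ← u2]
    exact hr
  · rcases fce R B e P1 Y P2 (fun r _ => hB r) hYs hY hw with
      ⟨R1, r, R2, a, c', hR, hBr, hP1, hP2'⟩ | ⟨a, c', hea, hP1, hP2'⟩
    · have hR12 : r ∉ R1 ∧ r ∉ R2 := by
        rw [hR, List.nodup_append, List.nodup_cons] at hnd
        exact ⟨fun h => hnd.2.2 r h r (by simp) rfl, hnd.2.1.1⟩
      have hrR : r ∈ R := by rw [hR]; simp
      obtain ⟨D, hD⟩ : ∃ D : List ℕ, D = a ++ (Y' ++ c') := ⟨_, rfl⟩
      have hDs : SFr D := by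
        intro v hv
        rw [hD] at hv
        refine hB r v ?_
        rw [hBr]
        rcases List.mem_append.1 hv with hv | hv
        · exact List.mem_append_left _ hv
        · refine List.mem_append_right _ ?_
          rcases List.mem_append.1 hv with hv | hv
          · exact List.mem_append_left _ (hYY.symm.subset hv)
          · exact List.mem_append_right _ hv
      have e1 : Bw R (up B r D) = Bw R1 B ++ (D ++ (3 * r + 2) :: Bw R2 B) := by
        rw [hR, bw_sp, up_eq]
        rw [bw_cg (R := R1) (B := up B r D) (B' := B) (fun q hq => up_ne B D (fun h => hR12.1 (h ▸ hq))),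
          bw_cg (R := R2) (B := up B r D) (B' := B) (fun q hq => up_ne B D (fun h => hR12.2 (h ▸ hq)))]
      have hSu : ∀ q ∈ R, SFr (up B r D q) := by
        intro q _
        by_cases h : q = r
        · subst h
          rw [up_eq]
          exact hDs
        · rw [up_ne B D h]
          exact hB q
      have e2 : Bw R (up B r D) ++ e = Bw R B' ++ e' := by
        rw [hw', e1, hP1, hP2', hD]
        simp only [List.append_assoc, List.cons_append]
      obtain ⟨u1, u2⟩ := uni R (up B r D) B' e e' hnd hSu (fun r _ => hB' r) he he' e2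
      have hRt : Rt R B e r c' Λ := by
        by_cases hΛ : Λ = []
        · subst hΛ
          exact Or.inl ⟨c', [], by simp⟩
        · have e3 : Bw (r :: R2) (up B r c') ++ e = Q1 ++ (Λ ++ Q2) := by
            rw [← hP2, hP2']
            have e4 := bw_sp [] R2 r (up B r c')
            rw [List.nil_append] at e4
            rw [e4, up_eq, bw_cg (R := R2) (B := up B r c') (B' := B)
              (fun q hq => up_ne B c' (fun h => hR12.2 (h ▸ hq)))]
            simp [Bw]
          have hSc : ∀ q ∈ r :: R2, SFr (up B r c' q) := by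
            intro q _
            by_cases h : q = r
            · subst h
              rw [up_eq]
              intro v hv
              refine hB q v ?_
              rw [hBr]
              exact List.mem_append_right _ (List.mem_append_right _ hv)
            · rw [up_ne B c' h]
              exact hB q
          rcases fce (r :: R2) (up B r c') e Q1 Λ Q2 hSc hΛs hΛ e3 with
            ⟨S1, r', S2, a', c'', hSR, hBr', -, -⟩ | ⟨a', c'', hea', -, -⟩
          · by_cases h : r' = r
            · subst h
              rw [up_eq] at hBr'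
              exact Or.inl ⟨a', c'', hBr'⟩
            · rw [up_ne B c' h] at hBr'
              have hm : r' ∈ R2 := by
                have h5 : r' ∈ r :: R2 := by rw [hSR]; simp
                rcases List.mem_cons.1 h5 with h5 | h5
                · exact absurd h5 h
                · exact h5
              obtain ⟨A1, A2, hA⟩ := List.append_of_mem hm
              refine Or.inr (Or.inl ⟨r', ?_, ⟨R1, A1, A2, ?_⟩, a', c'', hBr'⟩)
              · rw [hR]
                exact List.mem_append_right _ (List.mem_cons_of_mem _ hm)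
              · rw [hR, hA]
          · exact Or.inr (Or.inr ⟨a', c'', hea'⟩)
      rw [← pz_cg u1, ← u2, hD]
      by_cases hr0 : r = 0
      · subst hr0
        exact h0 n β m R c X B e hS hX hB he hr a Y Y' c' Λ hBr hYY hQ hRt
      · by_cases hr1 : r = 1
        · subst hr1
          exact ⟨X, hX, h1 n β m R c X B e hS hX hB he hr a Y Y' c' Λ hBr hYY hQ hRt⟩
        · exact ⟨X, hX, (h2 n β m R c X B e hS hX hB he hr).1 r hrR hr0 hr1 a Y Y' c' Λ hBr hYY hQ
            hRt⟩
    · have hs : SFr (a ++ (Y' ++ c')) := by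
        intro v hv
        refine he v ?_
        rw [hea]
        rcases List.mem_append.1 hv with hv | hv
        · exact List.mem_append_left _ hv
        · refine List.mem_append_right _ ?_
          rcases List.mem_append.1 hv with hv | hv
          · exact List.mem_append_left _ (hYY.symm.subset hv)
          · exact List.mem_append_right _ hv
      have e2 : Bw R B ++ (a ++ (Y' ++ c')) = Bw R B' ++ e' := by
        rw [hw', hP1, hP2']
        simp only [List.append_assoc]
      obtain ⟨u1, u2⟩ := uni R B B' _ e' hnd (fun r _ => hB r) (fun r _ => hB' r) hs he' e2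
      rw [← pz_cg u1, ← u2]
      exact ⟨X, hX, (h2 n β m R c X B e hS hX hB he hr).2 a Y Y' c' hea hYY⟩

end Pool.Agent.MWFE.H54C
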